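import Pool.Agent.H19.Elem

set_option autoImplicit false

namespace Pool.Agent.Results.MP_2a6a08_co.Upper

open Pool.Agent.H19.Elem

/-- Every positive integer below the Fibonacci number of index `n + 1` lies in an elementary
sequence of length at most `n + n / r + 2 * 4 ^ r + 1`. -/
theorem result (n k r : ℕ) (hk : 1 ≤ k) (hn : k < Nat.fib (n + 1)) (hr : 1 ≤ r) :
    ∃ l : List ℕ, IsElem l ∧ k ∈ l ∧ l.length ≤ n + n / r + 2 * 4 ^ r + 1 :=
  main n k r hk hn hr

end Pool.Agent.Results.MP_2a6a08_co.Upper
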